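import Pool.Agent.Lib_helper75.Spectral.Concrete

/-!
The Birkhoff polytope `B_5` (convex hull of the 120 centred permutation matrices of order five)
satisfies the three symmetry conditions but is not combinatorially equivalent to any spectral
polytope.
-/

open Pool.Agent.Lib_helper75.Spectral

namespace Pool.Agent.Results.MP_2354fb_co.BirkhoffB5

/-- **Negative answer.** There is a polytope `P` in some `ℝ^d`, with 120 vertices, that is
vertex-transitive, realizes all symmetries of its edge-graph and has an irreducible symmetry group,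
but is not combinatorially equivalent to any spectral polytope. -/
theorem result :
    ∃ (d : ℕ) (P : Set (EuclideanSpace ℝ (Fin d))),
      IsPolytope P ∧ (P.extremePoints ℝ).ncard = 120 ∧
      VertexTransitive P ∧ RealizesSymmetries P ∧ IrreducibleSymmetries P ∧
      ∀ (d' : ℕ) (Q : Set (EuclideanSpace ℝ (Fin d'))),
        IsPolytope Q → IsSpectral Q → ¬ CombEquiv P Q := by
  have hcard : ((BP pB).extremePoints ℝ).ncard = 120 := by
    rw [isB5_pB.ext, ← Set.image_univ, Set.ncard_image_of_injective _ isB5_pB.inj, Set.ncard_univ,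
      Nat.card_eq_fintype_card, Fintype.card_perm, Fintype.card_fin]
    rfl
  refine ⟨Module.finrank ℝ KK, BP pB, isB5_pB.isPolytope, hcard, isB5_pB.vertexTransitive,
    isB5_pB.realizes, isB5_pB.irreducible, ?_⟩
  intro d' Q hQ hspec hcomb
  obtain ⟨t, ht⟩ := hQ.hull
  have h1 : Nonempty (edgeGraph (BP pB) ≃g edgeGraph Q) := by
    rw [BP_eq, ht] at hcomb ⊢
    exact edgeGraph_iso _ _ hcomb
  obtain ⟨ψ⟩ := h1
  exact not_spectral Q hQ (isB5_pB.iso.trans ψ).symm hspec

end Pool.Agent.Results.MP_2354fb_co.BirkhoffB5
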